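import Mathlib

/-!
# The theorem of Gul'ko and Khmyleva: the fibrewise homeomorphism

`c` is the space of convergent sequences `y k = z k + r` with limit `r`. For every `e > 0` we give
an explicit homeomorphism between the set of sequences with positive limit and the set of all
convergent sequences, controlled up to `e`.
-/

set_option autoImplicit false
set_option linter.unusedSectionVars false

open Set Filter Topology

noncomputable section

namespace Pool.Agent.J4H55.GK

/-- clamp to `[0,1]` -/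
def cl (x : ℝ) : ℝ := max 0 (min 1 x)

lemma cl_cont : Continuous cl := by unfold cl; fun_prop

lemma cl_nonneg (x : ℝ) : 0 ≤ cl x := le_max_left _ _

lemma cl_le_one (x : ℝ) : cl x ≤ 1 := max_le (by norm_num) (min_le_left _ _)

lemma cl_of_nonpos {x : ℝ} (h : x ≤ 0) : cl x = 0 := by
  unfold cl; rw [min_eq_right (by linarith), max_eq_left h]

lemma cl_of_one_le {x : ℝ} (h : 1 ≤ x) : cl x = 1 := by
  unfold cl; rw [min_eq_left h, max_eq_right (by norm_num)]

lemma cl_mono : Monotone cl := fun _ _ h => max_le_max le_rfl (min_le_min le_rfl h)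

lemma cl_abs_le (x : ℝ) : |cl x| ≤ 1 := by
  rw [abs_of_nonneg (cl_nonneg x)]; exact cl_le_one x

/-- truncated running maximum -/
def Mx : ℕ → ℝ → (ℕ → ℝ) → ℝ
  | 0, _, _ => 0
  | N + 1, t, y => max (Mx N t y) (cl (t - N) * |y N|)

lemma Mx_nonneg (N : ℕ) (t : ℝ) (y : ℕ → ℝ) : 0 ≤ Mx N t y := by
  cases N with
  | zero => exact le_rfl
  | succ N =>
    have : 0 ≤ cl (t - N) * |y N| := mul_nonneg (cl_nonneg _) (abs_nonneg _)
    exact this.trans (le_max_right _ _)

lemma Mx_succ_of_le {N : ℕ} {t : ℝ} (h : t ≤ N) (y : ℕ → ℝ) : Mx (N + 1) t y = Mx N t y := by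
  show max (Mx N t y) (cl (t - N) * |y N|) = _
  rw [cl_of_nonpos (by linarith), zero_mul]
  exact max_eq_left (Mx_nonneg _ _ _)

/-- running maximum of `|y k|`, `k < t` (interpolated) -/
def MM (t : ℝ) (y : ℕ → ℝ) : ℝ := Mx ⌈t⌉₊ t y

lemma Mx_eq {N : ℕ} {t : ℝ} (h : t ≤ N) (y : ℕ → ℝ) : Mx N t y = MM t y := by
  have h1 : ⌈t⌉₊ ≤ N := Nat.ceil_le.2 h
  induction N, h1 using Nat.le_induction with
  | base => rfl
  | succ n hn ih =>
    have h2 : t ≤ n := Nat.ceil_le.1 hn
    rw [Mx_succ_of_le h2, ih h2]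

lemma Mx_cont (N : ℕ) : Continuous fun p : ℝ × (ℕ → ℝ) => Mx N p.1 p.2 := by
  induction N with
  | zero => exact continuous_const
  | succ N ih =>
    show Continuous fun p : ℝ × (ℕ → ℝ) => max (Mx N p.1 p.2) (cl (p.1 - N) * |p.2 N|)
    have h1 : Continuous fun p : ℝ × (ℕ → ℝ) => cl (p.1 - N) :=
      cl_cont.comp (continuous_fst.sub continuous_const)
    have h2 : Continuous fun p : ℝ × (ℕ → ℝ) => |p.2 N| :=
      ((continuous_apply N).comp continuous_snd).abs
    exact ih.max (h1.mul h2)

lemma MM_cont : Continuous fun p : ℝ × (ℕ → ℝ) => MM p.1 p.2 := by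
  rw [continuous_iff_continuousAt]
  intro p
  obtain ⟨N, hN⟩ := exists_nat_gt p.1
  have h1 : ∀ᶠ q : ℝ × (ℕ → ℝ) in 𝓝 p, q.1 < N :=
    continuous_fst.continuousAt.eventually_lt_const hN
  refine ((Mx_cont N).continuousAt (x := p)).congr ?_
  filter_upwards [h1] with q hq
  exact Mx_eq hq.le _

lemma cont_MM {α : Type*} [TopologicalSpace α] {t : α → ℝ} {y : α → ℕ → ℝ} (ht : Continuous t)
    (hy : Continuous y) : Continuous fun a => MM (t a) (y a) :=
  MM_cont.comp (ht.prodMk hy)

lemma MM_nonneg (t : ℝ) (y : ℕ → ℝ) : 0 ≤ MM t y := Mx_nonneg _ _ _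

lemma MM_of_nonpos {t : ℝ} (h : t ≤ 0) (y : ℕ → ℝ) : MM t y = 0 := by
  unfold MM
  rw [Nat.ceil_eq_zero.2 h]
  rfl

lemma Mx_mono (N : ℕ) {t s : ℝ} (h : t ≤ s) (y : ℕ → ℝ) : Mx N t y ≤ Mx N s y := by
  induction N with
  | zero => exact le_rfl
  | succ N ih =>
    exact max_le_max ih (mul_le_mul_of_nonneg_right (cl_mono (by linarith)) (abs_nonneg _))

lemma MM_mono {t s : ℝ} (h : t ≤ s) (y : ℕ → ℝ) : MM t y ≤ MM s y := by
  have h1 : t ≤ (⌈s⌉₊ : ℝ) := h.trans (Nat.le_ceil s)
  rw [← Mx_eq h1]
  exact Mx_mono _ h y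

lemma le_Mx {N k : ℕ} (h : k < N) (t : ℝ) (y : ℕ → ℝ) : cl (t - k) * |y k| ≤ Mx N t y := by
  induction N with
  | zero => omega
  | succ N ih =>
    rcases Nat.lt_succ_iff_lt_or_eq.1 h with h1 | rfl
    · exact (ih h1).trans (le_max_left _ _)
    · exact le_max_right _ _

lemma le_MM {k : ℕ} {t : ℝ} (h : (k : ℝ) + 1 ≤ t) (y : ℕ → ℝ) : |y k| ≤ MM t y := by
  have h1 : k < ⌈t⌉₊ := by
    rw [Nat.lt_ceil]
    linarith
  have h2 := le_Mx h1 t y
  rwa [cl_of_one_le (by linarith), one_mul] at h2

lemma Mx_le {b : ℝ} (hb : 0 ≤ b) (N : ℕ) (t : ℝ) {y : ℕ → ℝ} (h : ∀ k, |y k| ≤ b) :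
    Mx N t y ≤ b := by
  induction N with
  | zero => exact hb
  | succ N ih =>
    refine max_le ih ?_
    calc cl (t - N) * |y N| ≤ 1 * |y N| :=
          mul_le_mul_of_nonneg_right (cl_le_one _) (abs_nonneg _)
      _ ≤ b := by rw [one_mul]; exact h N

lemma MM_le {b : ℝ} (hb : 0 ≤ b) (t : ℝ) {y : ℕ → ℝ} (h : ∀ k, |y k| ≤ b) : MM t y ≤ b :=
  Mx_le hb _ _ h

lemma Mx_congr (N : ℕ) (t : ℝ) {y y' : ℕ → ℝ} (h : ∀ k : ℕ, (k : ℝ) < t → y k = y' k) :
    Mx N t y = Mx N t y' := by
  induction N with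
  | zero => rfl
  | succ N ih =>
    show max (Mx N t y) (cl (t - N) * |y N|) = max (Mx N t y') (cl (t - N) * |y' N|)
    rw [ih]
    by_cases h1 : (N : ℝ) < t
    · rw [h N h1]
    · rw [cl_of_nonpos (by linarith [not_lt.1 h1]), zero_mul, zero_mul]

lemma MM_congr (t : ℝ) {y y' : ℕ → ℝ} (h : ∀ k : ℕ, (k : ℝ) < t → y k = y' k) :
    MM t y = MM t y' := Mx_congr _ _ h

/-! ### The map and its inverse -/

/-- cut-off after the time `t` -/
def mu (k : ℕ) (t : ℝ) : ℝ := cl (1 + t - k)

lemma mu_cont (k : ℕ) : Continuous (mu k) := by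
  unfold mu
  exact cl_cont.comp (by fun_prop)

lemma mu_of_lt {k : ℕ} {t : ℝ} (h : (k : ℝ) < t) : mu k t = 1 := cl_of_one_le (by linarith)

lemma mu_of_le {k : ℕ} {t : ℝ} (h : t + 1 ≤ k) : mu k t = 0 := cl_of_nonpos (by linarith)

lemma mu_abs_le (k : ℕ) (t : ℝ) : |mu k t| ≤ 1 := cl_abs_le _

/-- the time of a positive limit `r` -/
def tf (e r : ℝ) : ℝ := max 0 (e / (2 * r) - 1)

/-- the new limit -/
def rf (e r : ℝ) (z : ℕ → ℝ) : ℝ :=
  r + min 0 (r - e / 2) - 2 * MM (tf e r) (fun k => z k + r)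

/-- the new sequence -/
def zf (e r : ℝ) (z : ℕ → ℝ) (k : ℕ) : ℝ := z k + mu k (tf e r) * (r - rf e r z)

/-- the equation of the time, for the inverse map -/
def ph (e r : ℝ) (z : ℕ → ℝ) (t : ℝ) : ℝ :=
  e / (1 + t) - e / 2 - 2 * MM t (fun k => z k + r) - r

/-- the time, for the inverse map -/
def IsT (e r : ℝ) (z : ℕ → ℝ) (t : ℝ) : Prop :=
  0 ≤ t ∧ ph e r z t ≤ 0 ∧ (0 < t → ph e r z t = 0)

lemma ph_lt {e : ℝ} (he : 0 < e) (r : ℝ) (z : ℕ → ℝ) {s t : ℝ} (hs : 0 ≤ s) (h : s < t) :
    ph e r z t < ph e r z s := by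
  unfold ph
  have h1 : e / (1 + t) < e / (1 + s) := div_lt_div_of_pos_left he (by linarith) (by linarith)
  have h2 := MM_mono h.le (fun k => z k + r)
  linarith

lemma IsT.unique {e : ℝ} (he : 0 < e) {r : ℝ} {z : ℕ → ℝ} {s t : ℝ} (hs : IsT e r z s)
    (ht : IsT e r z t) : s = t := by
  rcases lt_trichotomy s t with h | h | h
  · have h1 := ph_lt he r z hs.1 h
    have h2 := ht.2.2 (lt_of_le_of_lt hs.1 h)
    have h3 := hs.2.1
    linarith
  · exact h
  · have h1 := ph_lt he r z ht.1 h
    have h2 := hs.2.2 (lt_of_le_of_lt ht.1 h)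
    have h3 := ht.2.1
    linarith

lemma ph_contOn (e r : ℝ) (z : ℕ → ℝ) : ContinuousOn (ph e r z) (Ici 0) := by
  unfold ph
  have h1 : Continuous fun t : ℝ => MM t (fun k => z k + r) :=
    cont_MM continuous_id continuous_const
  refine ContinuousOn.sub (ContinuousOn.sub (ContinuousOn.sub ?_ continuousOn_const)
    (continuousOn_const.mul h1.continuousOn)) continuousOn_const
  refine ContinuousOn.div continuousOn_const (by fun_prop) ?_
  intro t ht
  have : (0 : ℝ) ≤ t := ht
  linarith

lemma exists_T {e : ℝ} (he : 0 < e) (r : ℝ) {z : ℕ → ℝ} (hz : Tendsto z atTop (𝓝 0)) :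
    ∃ t, IsT e r z t := by
  -- a time with nonpositive value
  obtain ⟨s, hs0, hs⟩ : ∃ s : ℝ, 0 ≤ s ∧ ph e r z s ≤ 0 := by
    rcases le_or_gt 0 r with hr | hr
    · refine ⟨1, by norm_num, ?_⟩
      unfold ph
      have := MM_nonneg 1 (fun k => z k + r)
      norm_num
      linarith
    · have h1 : ∀ᶠ k in atTop, |z k| < |r| / 2 := by
        have := (tendsto_zero_iff_abs_tendsto_zero _).1 hz
        exact this.eventually_lt_const (by positivity [abs_pos.2 hr.ne])
      obtain ⟨k, hk⟩ := h1.exists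
      refine ⟨k + 1, by positivity, ?_⟩
      unfold ph
      have h2 := le_MM (le_refl ((k : ℝ) + 1)) (fun k => z k + r)
      have h3 : |r| / 2 ≤ |z k + r| := by
        have : |r| ≤ |z k + r| + |z k| := by
          calc |r| = |(z k + r) - z k| := by congr 1; ring
            _ ≤ _ := abs_sub _ _
        linarith
      rw [abs_of_neg hr] at h3
      have h4 : e / (1 + ((k : ℝ) + 1)) ≤ e / 2 :=
        div_le_div_of_nonneg_left he.le (by norm_num) (by
          have : (0 : ℝ) ≤ k := Nat.cast_nonneg k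
          linarith)
      linarith
  by_cases h0 : ph e r z 0 ≤ 0
  · exact ⟨0, le_rfl, h0, fun h => absurd h (lt_irrefl _)⟩
  · have h1 := intermediate_value_Icc' hs0 ((ph_contOn e r z).mono Icc_subset_Ici_self)
    obtain ⟨t, ht, ht0⟩ := h1 ⟨hs, (not_le.1 h0).le⟩
    exact ⟨t, ht.1, ht0.le, fun _ => ht0⟩

open Classical in
/-- the time, for the inverse map -/
def tb (e r : ℝ) (z : ℕ → ℝ) : ℝ := if h : ∃ t, IsT e r z t then h.choose else 0

lemma tb_spec {e : ℝ} (he : 0 < e) (r : ℝ) {z : ℕ → ℝ} (hz : Tendsto z atTop (𝓝 0)) :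
    IsT e r z (tb e r z) := by
  have h := exists_T he r hz
  unfold tb
  rw [dif_pos h]
  exact h.choose_spec

lemma tb_eq {e : ℝ} (he : 0 < e) {r : ℝ} {z : ℕ → ℝ} {t : ℝ} (ht : IsT e r z t) :
    tb e r z = t := by
  have h : ∃ t, IsT e r z t := ⟨t, ht⟩
  unfold tb
  rw [dif_pos h]
  exact IsT.unique he h.choose_spec ht

lemma cont_ph {α : Type*} [TopologicalSpace α] {e r : α → ℝ} {z : α → ℕ → ℝ}
    (he : Continuous e) (hr : Continuous r) (hz : Continuous z) {t : ℝ} :
    Continuous fun a => ph (e a) (r a) (z a) t := by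
  unfold ph
  have h1 : Continuous fun a => MM t (fun k => z a k + r a) := by
    refine cont_MM continuous_const ?_
    rw [continuous_pi_iff] at hz ⊢
    exact fun k => (hz k).add hr
  exact (((he.div_const _).sub (he.div_const _)).sub (continuous_const.mul h1)).sub hr

lemma cont_tb {α : Type*} [TopologicalSpace α] {e r : α → ℝ} {z : α → ℕ → ℝ}
    (he : Continuous e) (hr : Continuous r) (hz : Continuous z) (he0 : ∀ a, 0 < e a)
    (hz0 : ∀ a, Tendsto (z a) atTop (𝓝 0)) : Continuous fun a => tb (e a) (r a) (z a) := by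
  have hT := fun a => tb_spec (he0 a) (r a) (hz0 a)
  rw [OrderTopology.continuous_iff]
  intro b
  constructor
  · rcases lt_or_ge b 0 with hb | hb
    · convert isOpen_univ
      ext a
      simp only [mem_preimage, mem_Ioi, mem_univ, iff_true]
      exact lt_of_lt_of_le hb (hT a).1
    · have : (fun a => tb (e a) (r a) (z a)) ⁻¹' Ioi b = {a | 0 < ph (e a) (r a) (z a) b} := by
        ext a
        simp only [mem_preimage, mem_Ioi, mem_ofPred_eq]
        constructor
        · intro h
          have h1 := ph_lt (he0 a) (r a) (z a) hb h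
          rw [(hT a).2.2 (lt_of_le_of_lt hb h)] at h1
          exact h1
        · intro h
          by_contra hc
          rcases (not_lt.1 hc).lt_or_eq with h1 | h1
          · have h2 := ph_lt (he0 a) (r a) (z a) (hT a).1 h1
            have h3 := (hT a).2.1
            linarith
          · have h3 := (hT a).2.1
            rw [h1] at h3
            linarith
      rw [this]
      exact isOpen_lt continuous_const (cont_ph he hr hz)
  · rcases le_or_gt b 0 with hb | hb
    · convert isOpen_empty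
      ext a
      simp only [mem_preimage, mem_Iio, mem_empty_iff_false, iff_false, not_lt]
      exact hb.trans (hT a).1
    · have : (fun a => tb (e a) (r a) (z a)) ⁻¹' Iio b = {a | ph (e a) (r a) (z a) b < 0} := by
        ext a
        simp only [mem_preimage, mem_Iio, mem_ofPred_eq]
        constructor
        · intro h
          have h1 := ph_lt (he0 a) (r a) (z a) (hT a).1 h
          have h3 := (hT a).2.1
          linarith
        · intro h
          by_contra hc
          have hc' := not_lt.1 hc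
          have h4 := (hT a).2.2 (lt_of_lt_of_le hb hc')
          rcases hc'.lt_or_eq with h1 | h1
          · have h2 := ph_lt (he0 a) (r a) (z a) hb.le h1
            linarith
          · rw [← h1] at h4
            linarith
      rw [this]
      exact isOpen_lt (cont_ph he hr hz) continuous_const

/-- the old limit -/
def rb (e r : ℝ) (z : ℕ → ℝ) : ℝ := e / (2 * (1 + tb e r z)) + max 0 (r - e / 2)

/-- the old sequence -/
def zb (e r : ℝ) (z : ℕ → ℝ) (k : ℕ) : ℝ := z k - mu k (tb e r z) * (rb e r z - r)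

section back

variable {e : ℝ} (he : 0 < e) {r : ℝ} {z : ℕ → ℝ} (hz : Tendsto z atTop (𝓝 0))
include he hz

lemma rb_pos : 0 < rb e r z := by
  have h := (tb_spec he r hz).1
  have h1 : 0 < e / (2 * (1 + tb e r z)) := by positivity
  have h2 : 0 ≤ max 0 (r - e / 2) := le_max_left _ _
  unfold rb
  linarith

lemma rb_le : rb e r z ≤ e / 2 + |r| := by
  have h := (tb_spec he r hz).1
  have h1 : e / (2 * (1 + tb e r z)) ≤ e / 2 :=
    div_le_div_of_nonneg_left he.le (by norm_num) (by linarith)
  have h2 : max 0 (r - e / 2) ≤ |r| := max_le (abs_nonneg _) (by linarith [le_abs_self r])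
  unfold rb
  linarith

lemma pos_of_lt (h : r < e / 2) : 0 < tb e r z := by
  rcases (tb_spec he r hz).1.lt_or_eq with h1 | h1
  · exact h1
  · have h2 := (tb_spec he r hz).2.1
    rw [← h1] at h2
    unfold ph at h2
    rw [MM_of_nonpos le_rfl] at h2
    norm_num at h2
    linarith

lemma zero_of_le (h : e / 2 ≤ r) : tb e r z = 0 := by
  apply tb_eq he
  refine ⟨le_rfl, ?_, fun h => absurd h (lt_irrefl _)⟩
  unfold ph
  rw [MM_of_nonpos le_rfl]
  norm_num
  linarith

lemma tf_rb : tf e (rb e r z) = tb e r z := by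
  have h0 := (tb_spec he r hz).1
  rcases lt_or_ge r (e / 2) with h | h
  · have h1 := pos_of_lt he hz h
    unfold tf rb
    rw [max_eq_left (by linarith : r - e / 2 ≤ 0), add_zero]
    have h2 : e / (2 * (e / (2 * (1 + tb e r z)))) - 1 = tb e r z := by
      field_simp
      ring
    rw [h2, max_eq_right h0]
  · have h1 := zero_of_le he hz h
    unfold tf rb
    rw [h1, max_eq_right (by linarith : 0 ≤ r - e / 2)]
    have h2 : e / (2 * (1 + 0)) + (r - e / 2) = r := by ring
    rw [h2]
    apply max_eq_left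
    have hr : 0 < r := by linarith
    rw [sub_nonpos, div_le_one (by positivity)]
    linarith

lemma head_zb (k : ℕ) (hk : (k : ℝ) < tb e r z) : zb e r z k + rb e r z = z k + r := by
  unfold zb
  rw [mu_of_lt hk]
  ring

lemma rf_rb : rf e (rb e r z) (zb e r z) = r := by
  have hM : MM (tb e r z) (fun k => zb e r z k + rb e r z) = MM (tb e r z) (fun k => z k + r) :=
    MM_congr _ (head_zb he hz)
  unfold rf
  rw [tf_rb he hz, hM]
  rcases lt_or_ge r (e / 2) with h | h
  · have h1 := pos_of_lt he hz h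
    have h2 := (tb_spec he r hz).2.2 h1
    have h3 : rb e r z = e / (2 * (1 + tb e r z)) := by
      unfold rb
      rw [max_eq_left (by linarith : r - e / 2 ≤ 0), add_zero]
    have h4 : rb e r z ≤ e / 2 := by
      rw [h3]
      exact div_le_div_of_nonneg_left he.le (by norm_num) (by linarith)
    rw [min_eq_right (by linarith)]
    have h5 : 2 * rb e r z = e / (1 + tb e r z) := by
      rw [h3]
      field_simp
    unfold ph at h2
    linarith
  · have h1 := zero_of_le he hz h
    have h3 : rb e r z = r := by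
      unfold rb
      rw [h1, max_eq_right (by linarith : 0 ≤ r - e / 2)]
      ring
    rw [h1, h3, MM_of_nonpos le_rfl, min_eq_left (by linarith)]
    ring

lemma zf_zb (k : ℕ) : zf e (rb e r z) (zb e r z) k = z k := by
  unfold zf
  rw [rf_rb he hz, tf_rb he hz]
  unfold zb
  ring

end back

section forth

variable {e : ℝ} (he : 0 < e) {r : ℝ} (hr : 0 < r) (z : ℕ → ℝ)
include he hr

lemma head_zf (k : ℕ) (hk : (k : ℝ) < tf e r) : zf e r z k + rf e r z = z k + r := by
  unfold zf
  rw [mu_of_lt hk]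
  ring

lemma isT_tf : IsT e (rf e r z) (zf e r z) (tf e r) := by
  have hM : MM (tf e r) (fun k => zf e r z k + rf e r z) = MM (tf e r) (fun k => z k + r) :=
    MM_congr _ (head_zf he hr z)
  have h0 : 0 ≤ tf e r := le_max_left _ _
  rcases lt_or_ge r (e / 2) with h | h
  · have h1 : tf e r = e / (2 * r) - 1 := by
      unfold tf
      apply max_eq_right
      rw [sub_nonneg, one_le_div (by positivity)]
      linarith
    have h2 : e / (1 + tf e r) = 2 * r := by
      have h6 : 1 + (e / (2 * r) - 1) = e / (2 * r) := by ring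
      have h7 := he.ne'
      rw [h1, h6]
      field_simp
    have h3 : ph e (rf e r z) (zf e r z) (tf e r) = 0 := by
      unfold ph
      rw [hM, h2]
      unfold rf
      rw [min_eq_right (by linarith)]
      ring
    exact ⟨h0, h3.le, fun _ => h3⟩
  · have h1 : tf e r = 0 := by
      unfold tf
      apply max_eq_left
      rw [sub_nonpos, div_le_one (by positivity)]
      linarith
    refine ⟨h0, ?_, fun h' => absurd h' (by rw [h1]; exact lt_irrefl _)⟩
    unfold ph
    rw [hM]
    unfold rf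
    rw [h1, MM_of_nonpos le_rfl, min_eq_left (by linarith)]
    norm_num
    linarith

lemma tb_rf : tb e (rf e r z) (zf e r z) = tf e r := tb_eq he (isT_tf he hr z)

lemma rb_rf : rb e (rf e r z) (zf e r z) = r := by
  unfold rb
  rw [tb_rf he hr z]
  rcases lt_or_ge r (e / 2) with h | h
  · have h1 : tf e r = e / (2 * r) - 1 := by
      unfold tf
      apply max_eq_right
      rw [sub_nonneg, one_le_div (by positivity)]
      linarith
    have h3 : rf e r z ≤ e / 2 := by
      unfold rf
      rw [min_eq_right (by linarith)]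
      have := MM_nonneg (tf e r) (fun k => z k + r)
      linarith
    have h6 : 1 + (e / (2 * r) - 1) = e / (2 * r) := by ring
    have h7 := he.ne'
    rw [max_eq_left (by linarith), h1, h6]
    field_simp
    ring
  · have h1 : tf e r = 0 := by
      unfold tf
      apply max_eq_left
      rw [sub_nonpos, div_le_one (by positivity)]
      linarith
    have h3 : rf e r z = r := by
      unfold rf
      rw [h1, MM_of_nonpos le_rfl, min_eq_left (by linarith)]
      ring
    rw [h1, h3, max_eq_right (by linarith)]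
    ring

lemma zb_zf (k : ℕ) : zb e (rf e r z) (zf e r z) k = z k := by
  unfold zb
  rw [tb_rf he hr z, rb_rf he hr z]
  unfold zf
  ring

lemma rf_abs_le {b : ℝ} (hb : ∀ k, |z k| ≤ b) (hrb : r ≤ b) (heb : e ≤ b) :
    |rf e r z| ≤ 6 * b := by
  have hb0 : 0 ≤ b := he.le.trans heb
  have h1 : MM (tf e r) (fun k => z k + r) ≤ 2 * b := by
    apply MM_le (by linarith)
    intro k
    calc |z k + r| ≤ |z k| + |r| := abs_add_le _ _
      _ ≤ b + b := add_le_add (hb k) (by rw [abs_of_pos hr]; exact hrb)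
      _ = 2 * b := by ring
  have h2 := MM_nonneg (tf e r) (fun k => z k + r)
  have h3 : min 0 (r - e / 2) ≤ 0 := min_le_left _ _
  have h4 : -(e / 2) ≤ min 0 (r - e / 2) := le_min (by linarith) (by linarith)
  unfold rf
  rw [abs_le]
  constructor <;> linarith

end forth

lemma cont_tf {α : Type*} [TopologicalSpace α] {e r : α → ℝ} (he : Continuous e)
    (hr : Continuous r) (hr0 : ∀ a, 0 < r a) : Continuous fun a => tf (e a) (r a) := by
  unfold tf
  exact continuous_const.max ((he.div (continuous_const.mul hr) fun a =>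
    (mul_pos two_pos (hr0 a)).ne').sub continuous_const)

lemma cont_rf {α : Type*} [TopologicalSpace α] {e r : α → ℝ} {z : α → ℕ → ℝ}
    (he : Continuous e) (hr : Continuous r) (hz : Continuous z) (hr0 : ∀ a, 0 < r a) :
    Continuous fun a => rf (e a) (r a) (z a) := by
  unfold rf
  have h1 : Continuous fun a => MM (tf (e a) (r a)) (fun k => z a k + r a) := by
    refine cont_MM (cont_tf he hr hr0) ?_
    rw [continuous_pi_iff] at hz ⊢
    exact fun k => (hz k).add hr
  exact (hr.add (continuous_const.min (hr.sub (he.div_const _)))).sub (continuous_const.mul h1)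

lemma cont_zf {α : Type*} [TopologicalSpace α] {e r : α → ℝ} {z : α → ℕ → ℝ}
    (he : Continuous e) (hr : Continuous r) (hz : Continuous z) (hr0 : ∀ a, 0 < r a) (k : ℕ) :
    Continuous fun a => zf (e a) (r a) (z a) k := by
  unfold zf
  exact ((continuous_apply k).comp hz).add (((mu_cont k).comp (cont_tf he hr hr0)).mul
    (hr.sub (cont_rf he hr hz hr0)))

lemma cont_rb {α : Type*} [TopologicalSpace α] {e r : α → ℝ} {z : α → ℕ → ℝ}
    (he : Continuous e) (hr : Continuous r) (hz : Continuous z) (he0 : ∀ a, 0 < e a)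
    (hz0 : ∀ a, Tendsto (z a) atTop (𝓝 0)) : Continuous fun a => rb (e a) (r a) (z a) := by
  unfold rb
  refine (he.div (continuous_const.mul (continuous_const.add (cont_tb he hr hz he0 hz0)))
    fun a => ?_).add (continuous_const.max (hr.sub (he.div_const _)))
  have h1 := (tb_spec (he0 a) (r a) (hz0 a)).1
  exact (mul_pos two_pos (show 0 < 1 + tb (e a) (r a) (z a) by linarith)).ne'

lemma cont_zb {α : Type*} [TopologicalSpace α] {e r : α → ℝ} {z : α → ℕ → ℝ}
    (he : Continuous e) (hr : Continuous r) (hz : Continuous z) (he0 : ∀ a, 0 < e a)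
    (hz0 : ∀ a, Tendsto (z a) atTop (𝓝 0)) (k : ℕ) :
    Continuous fun a => zb (e a) (r a) (z a) k := by
  unfold zb
  exact ((continuous_apply k).comp hz).sub (((mu_cont k).comp (cont_tb he hr hz he0 hz0)).mul
    ((cont_rb he hr hz he0 hz0).sub hr))

end Pool.Agent.J4H55.GK
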