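import Mathlib
import Pool.Agent.J4H55.GK.Fib

/-!
# The theorem of Gul'ko and Khmyleva: the function spaces and the two homeomorphisms
-/

set_option autoImplicit false

open Set Filter Topology

noncomputable section

namespace Pool.Agent.J4H55.GK

/-- the compact interval `[0,1]` -/
abbrev J : Type := unitInterval

variable {A : Type}

/-- vanishing at infinity for a family of functions on `J` -/
def Van (f : A → J → ℝ) : Prop := ∀ δ > 0, {a | ∃ x, δ ≤ |f a x|}.Finite

lemma Van.mono {f g : A → J → ℝ} (hg : Van g) (h : ∀ a x, |f a x| ≤ |g a x|) : Van f := by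
  intro δ hδ
  refine (hg δ hδ).subset ?_
  rintro a ⟨x, hx⟩
  exact ⟨x, hx.trans (h a x)⟩

lemma Van.add {f g : A → J → ℝ} (hf : Van f) (hg : Van g) : Van (fun a x => f a x + g a x) := by
  intro δ hδ
  refine ((hf (δ / 2) (by linarith)).union (hg (δ / 2) (by linarith))).subset ?_
  rintro a ⟨x, hx⟩
  by_contra hc
  simp only [mem_union, mem_ofPred_eq, not_or, not_exists, not_le] at hc
  have h1 := hc.1 x
  have h2 := hc.2 x
  have h3 := abs_add_le (f a x) (g a x)
  linarith

lemma Van.neg {f : A → J → ℝ} (hf : Van f) : Van (fun a x => - f a x) :=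
  hf.mono fun a x => by rw [abs_neg]

lemma Van.sub {f g : A → J → ℝ} (hf : Van f) (hg : Van g) : Van (fun a x => f a x - g a x) := by
  simpa only [sub_eq_add_neg] using hf.add hg.neg

lemma van_zero : Van (fun (_ : A) (_ : J) => (0 : ℝ)) := by
  intro δ hδ
  convert finite_empty
  ext a
  simp only [abs_zero, mem_ofPred_eq, mem_empty_iff_false, iff_false, not_exists, not_le]
  exact fun _ => hδ

/-- continuous functions on a space, pointwise topology -/
def CS (X : Type) [TopologicalSpace X] : AddSubgroup (X → ℝ) where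
  carrier := {f | Continuous f}
  add_mem' := fun h h' => Continuous.add h h'
  zero_mem' := continuous_const
  neg_mem' := fun h => Continuous.neg h

/-- all families of continuous functions -/
def PS (A : Type) : AddSubgroup (A → J → ℝ) where
  carrier := {f | ∀ a, Continuous (f a)}
  add_mem' := fun h h' a => (h a).add (h' a)
  zero_mem' := fun _ => continuous_const
  neg_mem' := fun h a => (h a).neg

/-- families of continuous functions vanishing at infinity -/
def DS (A : Type) : AddSubgroup (A → J → ℝ) where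
  carrier := {f | (∀ a, Continuous (f a)) ∧ Van f}
  add_mem' := fun h h' => ⟨fun a => (h.1 a).add (h'.1 a), h.2.add h'.2⟩
  zero_mem' := ⟨fun _ => continuous_const, van_zero⟩
  neg_mem' := fun h => ⟨fun a => (h.1 a).neg, h.2.neg⟩

/-- positive families vanishing at infinity -/
def VS (A : Type) : Type := {f : A → J → ℝ // f ∈ DS A ∧ ∀ a x, 0 < f a x}

instance : TopologicalSpace (VS A) := instTopologicalSpaceSubtype

/-- The first homeomorphism: `V × D = V × P`. -/
def homB (A : Type) : VS A × DS A ≃ₜ VS A × PS A where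
  toFun p := (⟨fun a x => p.1.1 a x + |p.2.1 a x|,
      ⟨⟨fun a => (p.1.2.1.1 a).add (p.2.2.1 a).abs,
        p.1.2.1.2.add (p.2.2.2.mono fun a x => by rw [abs_abs])⟩,
        fun a x => add_pos_of_pos_of_nonneg (p.1.2.2 a x) (abs_nonneg _)⟩⟩,
    ⟨fun a x => p.2.1 a x / p.1.1 a x,
      fun a => (p.2.2.1 a).div (p.1.2.1.1 a) fun x => (p.1.2.2 a x).ne'⟩)
  invFun p := (⟨fun a x => p.1.1 a x / (1 + |p.2.1 a x|),
      ⟨⟨fun a => (p.1.2.1.1 a).div (continuous_const.add (p.2.2 a).abs) fun x => by positivity,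
        p.1.2.1.2.mono fun a x => by
          rw [abs_div, abs_of_pos (by positivity : 0 < 1 + |p.2.1 a x|)]
          exact div_le_self (abs_nonneg _) (by linarith [abs_nonneg (p.2.1 a x)])⟩,
        fun a x => div_pos (p.1.2.2 a x) (by positivity)⟩⟩,
    ⟨fun a x => p.2.1 a x * (p.1.1 a x / (1 + |p.2.1 a x|)),
      ⟨fun a => (p.2.2 a).mul ((p.1.2.1.1 a).div (continuous_const.add (p.2.2 a).abs)
          fun x => by positivity),
        p.1.2.1.2.mono fun a x => by
          rw [abs_mul, abs_div, abs_of_pos (by positivity : 0 < 1 + |p.2.1 a x|),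
            mul_div_assoc', mul_comm, div_le_iff₀ (by positivity)]
          exact mul_le_mul_of_nonneg_left (by linarith) (abs_nonneg _)⟩⟩)
  left_inv := by
    rintro ⟨⟨r, hr⟩, ⟨f, hf⟩⟩
    have h0 := hr.2
    refine Prod.ext (Subtype.ext ?_) (Subtype.ext ?_)
    · funext a x
      have h1 := h0 a x
      show (r a x + |f a x|) / (1 + |f a x / r a x|) = r a x
      rw [abs_div, abs_of_pos h1]
      field_simp
    · funext a x
      have h1 := h0 a x
      show f a x / r a x * ((r a x + |f a x|) / (1 + |f a x / r a x|)) = f a x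
      rw [abs_div, abs_of_pos h1]
      have : 0 < r a x + |f a x| := by positivity
      field_simp
  right_inv := by
    rintro ⟨⟨s, hs⟩, ⟨g, hg⟩⟩
    have h0 := hs.2
    refine Prod.ext (Subtype.ext ?_) (Subtype.ext ?_)
    · funext a x
      have h1 := h0 a x
      show s a x / (1 + |g a x|) + |g a x * (s a x / (1 + |g a x|))| = s a x
      have h2 : 0 < 1 + |g a x| := by positivity
      rw [abs_mul, abs_of_pos (div_pos h1 h2)]
      field_simp
    · funext a x
      have h1 := h0 a x
      show g a x * (s a x / (1 + |g a x|)) / (s a x / (1 + |g a x|)) = g a x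
      have h2 : 0 < 1 + |g a x| := by positivity
      have h3 := (div_pos h1 h2).ne'
      exact mul_div_cancel_right₀ _ h3
  continuous_toFun := by
    have h1 : ∀ a x, Continuous fun p : VS A × DS A => p.1.1 a x := fun a x =>
      (continuous_apply x).comp ((continuous_apply a).comp
        (continuous_subtype_val.comp continuous_fst))
    have h2 : ∀ a x, Continuous fun p : VS A × DS A => p.2.1 a x := fun a x =>
      (continuous_apply x).comp ((continuous_apply a).comp
        (continuous_subtype_val.comp continuous_snd))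
    refine Continuous.prodMk (Continuous.subtype_mk ?_ _) (Continuous.subtype_mk ?_ _)
    · exact continuous_pi fun a => continuous_pi fun x => (h1 a x).add (h2 a x).abs
    · exact continuous_pi fun a => continuous_pi fun x => (h2 a x).div (h1 a x)
        fun p => (p.1.2.2 a x).ne'
  continuous_invFun := by
    have h1 : ∀ a x, Continuous fun p : VS A × PS A => p.1.1 a x := fun a x =>
      (continuous_apply x).comp ((continuous_apply a).comp
        (continuous_subtype_val.comp continuous_fst))
    have h2 : ∀ a x, Continuous fun p : VS A × PS A => p.2.1 a x := fun a x =>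
      (continuous_apply x).comp ((continuous_apply a).comp
        (continuous_subtype_val.comp continuous_snd))
    have h3 : ∀ a x, Continuous fun p : VS A × PS A => p.1.1 a x / (1 + |p.2.1 a x|) :=
      fun a x => (h1 a x).div (continuous_const.add (h2 a x).abs) fun p => by positivity
    refine Continuous.prodMk (Continuous.subtype_mk ?_ _) (Continuous.subtype_mk ?_ _)
    · exact continuous_pi fun a => continuous_pi fun x => h3 a x
    · exact continuous_pi fun a => continuous_pi fun x => (h2 a x).mul (h3 a x)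

/-! ### The second homeomorphism -/

lemma van_shift {z : A × ℕ → J → ℝ} (hz : Van z) {d t : A → J → ℝ} (hd : Van d)
    (ht : ∀ a, ∃ B : ℝ, ∀ x, t a x ≤ B) :
    Van (fun (p : A × ℕ) x => z p x + mu p.2 (t p.1 x) * d p.1 x) := by
  intro δ hδ
  choose B hB using ht
  have hF := hd (δ / 2) (by linarith)
  have h2 : (⋃ a ∈ {a | ∃ x, δ / 2 ≤ |d a x|},
      (fun k : ℕ => (a, k)) '' Iic ⌈B a + 1⌉₊).Finite :=
    hF.biUnion fun a _ => (finite_Iic _).image _
  refine ((hz (δ / 2) (by linarith)).union h2).subset ?_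
  rintro ⟨a, k⟩ ⟨x, hx⟩
  by_contra hc
  rw [mem_union, not_or] at hc
  obtain ⟨hc1, hc2⟩ := hc
  simp only [mem_ofPred_eq, not_exists, not_le] at hc1
  have h3 := hc1 x
  have h4 : |mu k (t a x) * d a x| < δ / 2 := by
    by_cases h5 : ∃ y, δ / 2 ≤ |d a y|
    · have h6 : mu k (t a x) = 0 := by
        apply mu_of_le
        by_contra h7
        apply hc2
        rw [mem_iUnion₂]
        refine ⟨a, h5, k, ?_, rfl⟩
        rw [mem_Iic]
        have h8 : (k : ℝ) ≤ B a + 1 := by linarith [hB a x]
        exact_mod_cast h8.trans (Nat.le_ceil _)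
      rw [h6, zero_mul, abs_zero]
      linarith
    · push Not at h5
      calc |mu k (t a x) * d a x| = |mu k (t a x)| * |d a x| := abs_mul _ _
        _ ≤ 1 * |d a x| := mul_le_mul_of_nonneg_right (mu_abs_le _ _) (abs_nonneg _)
        _ < δ / 2 := by rw [one_mul]; exact h5 x
  have h9 : |z (a, k) x + mu k (t a x) * d a x| ≤ |z (a, k) x| + |mu k (t a x) * d a x| :=
    abs_add_le _ _
  simp only at hx
  linarith

lemma exists_bound {f : J → ℝ} (hf : Continuous f) : ∃ B : ℝ, ∀ x, f x ≤ B := by
  obtain ⟨B, hB⟩ := (isCompact_range hf).bddAbove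
  exact ⟨B, fun x => hB (mem_range_self x)⟩

lemma van_fiber {z : A × ℕ → J → ℝ} (hz : Van z) (a : A) (x : J) :
    Tendsto (fun k => z (a, k) x) atTop (𝓝 0) := by
  rw [Metric.tendsto_atTop]
  intro δ hδ
  have h1 : {k : ℕ | ∃ x, δ ≤ |z (a, k) x|}.Finite := by
    refine Finite.of_finite_image ((hz δ hδ).subset ?_) (f := fun k : ℕ => (a, k)) ?_
    · rintro _ ⟨k, hk, rfl⟩
      exact hk
    · intro k _ k' _ h
      exact (Prod.mk.inj h).2
  obtain ⟨N, hN⟩ := h1.bddAbove
  refine ⟨N + 1, fun n hn => ?_⟩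
  rw [Real.dist_eq, sub_zero]
  by_contra hc
  have := hN (show n ∈ {k : ℕ | ∃ x, δ ≤ |z (a, k) x|} from ⟨x, not_lt.1 hc⟩)
  omega

/-- a positive null family of constants -/
structure Eps (A : Type) where
  e : A → ℝ
  pos : ∀ a, 0 < e a
  van : Van (fun a (_ : J) => e a)

section homA

variable (E : Eps A)

lemma van_rf {z : A × ℕ → J → ℝ} (hz : Van z) {r : A → J → ℝ} (hr : Van r)
    (hr0 : ∀ a x, 0 < r a x) :
    Van (fun a x => rf (E.e a) (r a x) (fun k => z (a, k) x)) := by
  intro δ hδ
  have h1 := hr (δ / 12) (by linarith)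
  have h2 := E.van (δ / 12) (by linarith)
  have h3 := (hz (δ / 12) (by linarith)).image Prod.fst
  refine ((h1.union h2).union h3).subset ?_
  rintro a ⟨x, hx⟩
  by_contra hc
  simp only [mem_union, not_or] at hc
  obtain ⟨⟨hc1, hc2⟩, hc3⟩ := hc
  simp only [mem_ofPred_eq, not_exists, not_le] at hc1 hc2
  have h4 : ∀ k, |z (a, k) x| ≤ δ / 12 := by
    intro k
    by_contra h5
    apply hc3
    exact ⟨(a, k), ⟨x, (not_le.1 h5).le⟩, rfl⟩
  have h6 := rf_abs_le (E.pos a) (hr0 a x) (fun k => z (a, k) x) h4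
    ((le_abs_self _).trans (hc1 x).le) ((le_abs_self _).trans (hc2 x).le)
  linarith

lemma van_rb {z : A × ℕ → J → ℝ} (hz : Van z) {r : A → J → ℝ} (hr : Van r) :
    Van (fun a x => rb (E.e a) (r a x) (fun k => z (a, k) x)) := by
  have h1 : Van (fun a x => E.e a + |r a x|) :=
    E.van.add (hr.mono fun a x => by rw [abs_abs])
  refine h1.mono fun a x => ?_
  have h2 := rb_pos (E.pos a) (van_fiber hz a x) (r := r a x)
  have h3 := rb_le (E.pos a) (van_fiber hz a x) (r := r a x)
  have h4 := E.pos a
  rw [abs_of_pos h2, abs_of_nonneg (by positivity)]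
  linarith

lemma cont_fib {z : A × ℕ → J → ℝ} (hz : ∀ p, Continuous (z p)) (a : A) :
    Continuous fun x => fun k : ℕ => z (a, k) x :=
  continuous_pi fun k => hz (a, k)

/-- the map -/
def fA (p : DS (A × ℕ) × VS A) : DS (A × ℕ) × DS A :=
  (⟨fun q x => zf (E.e q.1) (p.2.1 q.1 x) (fun k => p.1.1 (q.1, k) x) q.2, by
    obtain ⟨⟨z, hz⟩, ⟨r, hr⟩⟩ := p
    refine ⟨fun q => cont_zf continuous_const (hr.1.1 q.1) (cont_fib hz.1 q.1)
      (fun x => hr.2 q.1 x) q.2, ?_⟩
    have h1 := van_shift hz.2 (hr.1.2.sub (van_rf E hz.2 hr.1.2 hr.2))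
      (t := fun a x => tf (E.e a) (r a x))
      (fun a => exists_bound (cont_tf continuous_const (hr.1.1 a) (hr.2 a)))
    exact h1⟩,
   ⟨fun a x => rf (E.e a) (p.2.1 a x) (fun k => p.1.1 (a, k) x), by
    obtain ⟨⟨z, hz⟩, ⟨r, hr⟩⟩ := p
    exact ⟨fun a => cont_rf continuous_const (hr.1.1 a) (cont_fib hz.1 a) (hr.2 a),
      van_rf E hz.2 hr.1.2 hr.2⟩⟩)

/-- the inverse map -/
def gA (p : DS (A × ℕ) × DS A) : DS (A × ℕ) × VS A :=
  (⟨fun q x => zb (E.e q.1) (p.2.1 q.1 x) (fun k => p.1.1 (q.1, k) x) q.2, by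
    obtain ⟨⟨z, hz⟩, ⟨r, hr⟩⟩ := p
    refine ⟨fun q => cont_zb continuous_const (hr.1 q.1) (cont_fib hz.1 q.1)
      (fun _ => E.pos q.1) (fun x => van_fiber hz.2 q.1 x) q.2, ?_⟩
    have h1 := van_shift hz.2 ((van_rb E hz.2 hr.2).sub hr.2).neg
      (t := fun a x => tb (E.e a) (r a x) (fun k => z (a, k) x))
      (fun a => exists_bound (cont_tb continuous_const (hr.1 a) (cont_fib hz.1 a)
        (fun _ => E.pos a) (fun x => van_fiber hz.2 a x)))
    refine h1.mono fun q x => le_of_eq ?_
    unfold zb
    congr 1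
    ring⟩,
   ⟨fun a x => rb (E.e a) (p.2.1 a x) (fun k => p.1.1 (a, k) x), by
    obtain ⟨⟨z, hz⟩, ⟨r, hr⟩⟩ := p
    exact ⟨⟨fun a => cont_rb continuous_const (hr.1 a) (cont_fib hz.1 a)
      (fun _ => E.pos a) (fun x => van_fiber hz.2 a x), van_rb E hz.2 hr.2⟩,
      fun a x => rb_pos (E.pos a) (van_fiber hz.2 a x)⟩⟩)

/-- The second homeomorphism: `D × V = D × D`. -/
def homA : DS (A × ℕ) × VS A ≃ₜ DS (A × ℕ) × DS A where
  toFun := fA E
  invFun := gA E
  left_inv := by
    rintro ⟨⟨z, hz⟩, ⟨r, hr⟩⟩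
    refine Prod.ext (Subtype.ext ?_) (Subtype.ext ?_)
    · funext ⟨a, k⟩ x
      exact zb_zf (E.pos a) (hr.2 a x) (fun k => z (a, k) x) k
    · funext a x
      exact rb_rf (E.pos a) (hr.2 a x) (fun k => z (a, k) x)
  right_inv := by
    rintro ⟨⟨z, hz⟩, ⟨r, hr⟩⟩
    refine Prod.ext (Subtype.ext ?_) (Subtype.ext ?_)
    · funext ⟨a, k⟩ x
      exact zf_zb (E.pos a) (van_fiber hz.2 a x) k
    · funext a x
      exact rf_rb (E.pos a) (van_fiber hz.2 a x)
  continuous_toFun := by
    have h1 : ∀ a x, Continuous fun p : DS (A × ℕ) × VS A => fun k : ℕ => p.1.1 (a, k) x :=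
      fun a x => continuous_pi fun k => (continuous_apply x).comp ((continuous_apply (a, k)).comp
        (continuous_subtype_val.comp continuous_fst))
    have h2 : ∀ a x, Continuous fun p : DS (A × ℕ) × VS A => p.2.1 a x := fun a x =>
      (continuous_apply x).comp ((continuous_apply a).comp
        (continuous_subtype_val.comp continuous_snd))
    refine Continuous.prodMk (Continuous.subtype_mk ?_ _) (Continuous.subtype_mk ?_ _)
    · exact continuous_pi fun q => continuous_pi fun x => cont_zf continuous_const (h2 q.1 x)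
        (h1 q.1 x) (fun p => p.2.2.2 q.1 x) q.2
    · exact continuous_pi fun a => continuous_pi fun x => cont_rf continuous_const (h2 a x)
        (h1 a x) (fun p => p.2.2.2 a x)
  continuous_invFun := by
    have h1 : ∀ a x, Continuous fun p : DS (A × ℕ) × DS A => fun k : ℕ => p.1.1 (a, k) x :=
      fun a x => continuous_pi fun k => (continuous_apply x).comp ((continuous_apply (a, k)).comp
        (continuous_subtype_val.comp continuous_fst))
    have h2 : ∀ a x, Continuous fun p : DS (A × ℕ) × DS A => p.2.1 a x := fun a x =>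
      (continuous_apply x).comp ((continuous_apply a).comp
        (continuous_subtype_val.comp continuous_snd))
    refine Continuous.prodMk (Continuous.subtype_mk ?_ _) (Continuous.subtype_mk ?_ _)
    · exact continuous_pi fun q => continuous_pi fun x => cont_zb continuous_const (h2 q.1 x)
        (h1 q.1 x) (fun _ => E.pos q.1) (fun p => van_fiber p.1.2.2 q.1 x) q.2
    · exact continuous_pi fun a => continuous_pi fun x => cont_rb continuous_const (h2 a x)
        (h1 a x) (fun _ => E.pos a) (fun p => van_fiber p.1.2.2 a x)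

end homA

end Pool.Agent.J4H55.GK
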