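import Mathlib
import Pool.Agent.J4H55.GK.Spa

/-!
# The theorem of Gul'ko and Khmyleva: decomposition arguments
-/

set_option autoImplicit false

open Set Filter Topology

noncomputable section

namespace Pool.Agent.J4H55.GK

/-! ### Reindexing -/

lemma van_comp {A B : Type} {f : B → J → ℝ} (hf : Van f) (φ : A ≃ B) :
    Van (fun a => f (φ a)) := by
  intro δ hδ
  refine ((hf δ hδ).preimage (f := φ) φ.injective.injOn).subset ?_
  rintro a ⟨x, hx⟩
  exact ⟨x, hx⟩

lemma van_comp' {A B : Type} {f : B → J → ℝ} (hf : Van f) {φ : A → B}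
    (hφ : Function.Injective φ) : Van (fun a => f (φ a)) := by
  intro δ hδ
  refine ((hf δ hδ).preimage (f := φ) hφ.injOn).subset ?_
  rintro a ⟨x, hx⟩
  exact ⟨x, hx⟩

/-- reindexing -/
def reD {A B : Type} (φ : A ≃ B) : DS B ≃ₜ DS A where
  toFun f := ⟨fun a => f.1 (φ a), fun a => f.2.1 (φ a), van_comp f.2.2 φ⟩
  invFun f := ⟨fun b => f.1 (φ.symm b), fun b => f.2.1 (φ.symm b), van_comp f.2.2 φ.symm⟩
  left_inv f := Subtype.ext (funext fun b => by simp)
  right_inv f := Subtype.ext (funext fun a => by simp)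
  continuous_toFun := by
    refine Continuous.subtype_mk (continuous_pi fun a => ?_) _
    exact (continuous_apply (φ a)).comp continuous_subtype_val
  continuous_invFun := by
    refine Continuous.subtype_mk (continuous_pi fun a => ?_) _
    exact (continuous_apply (φ.symm a)).comp continuous_subtype_val

/-- sums of index sets -/
def sumD (A B : Type) : DS (A ⊕ B) ≃ₜ DS A × DS B where
  toFun f := (⟨fun a => f.1 (Sum.inl a), fun a => f.2.1 (Sum.inl a),
      van_comp' f.2.2 Sum.inl_injective⟩,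
    ⟨fun a => f.1 (Sum.inr a), fun a => f.2.1 (Sum.inr a),
      van_comp' f.2.2 Sum.inr_injective⟩)
  invFun p := ⟨Sum.elim p.1.1 p.2.1, by
    constructor
    · rintro (a | b)
      · exact p.1.2.1 a
      · exact p.2.2.1 b
    · intro δ hδ
      refine (((p.1.2.2 δ hδ).image Sum.inl).union ((p.2.2.2 δ hδ).image Sum.inr)).subset ?_
      rintro (a | b) ⟨x, hx⟩
      · exact Or.inl ⟨a, ⟨x, hx⟩, rfl⟩
      · exact Or.inr ⟨b, ⟨x, hx⟩, rfl⟩⟩
  left_inv f := Subtype.ext (funext fun s => by cases s <;> rfl)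
  right_inv p := rfl
  continuous_toFun := by
    refine Continuous.prodMk (Continuous.subtype_mk ?_ _) (Continuous.subtype_mk ?_ _)
    · exact continuous_pi fun a => (continuous_apply (Sum.inl a)).comp continuous_subtype_val
    · exact continuous_pi fun a => (continuous_apply (Sum.inr a)).comp continuous_subtype_val
  continuous_invFun := by
    refine Continuous.subtype_mk (continuous_pi ?_) _
    rintro (a | b)
    · exact (continuous_apply a).comp (continuous_subtype_val.comp continuous_fst)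
    · exact (continuous_apply b).comp (continuous_subtype_val.comp continuous_snd)

/-- the numbers `1 / (n + 1)` -/
def epsNat : Eps ℕ where
  e n := 1 / ((n : ℝ) + 1)
  pos n := by positivity
  van := by
    intro δ hδ
    obtain ⟨N, hN⟩ := exists_nat_one_div_lt hδ
    refine (finite_Iio N).subset ?_
    rintro n ⟨x, hx⟩
    rw [mem_Iio]
    by_contra hc
    have h1 : (N : ℝ) ≤ n := by exact_mod_cast not_lt.1 hc
    have h2 : 1 / ((n : ℝ) + 1) ≤ 1 / ((N : ℝ) + 1) :=
      one_div_le_one_div_of_le (by positivity) (by linarith)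
    rw [abs_of_pos (by positivity)] at hx
    linarith

section

variable {X Y X' Y' Z : Type} [TopologicalSpace X] [TopologicalSpace Y] [TopologicalSpace X']
  [TopologicalSpace Y'] [TopologicalSpace Z]

/-- being homeomorphic -/
def Ho (X Y : Type) [TopologicalSpace X] [TopologicalSpace Y] : Prop := Nonempty (X ≃ₜ Y)

lemma Ho.refl : Ho X X := ⟨Homeomorph.refl X⟩

lemma Ho.symm (h : Ho X Y) : Ho Y X := h.map Homeomorph.symm

lemma Ho.trans (h : Ho X Y) (h' : Ho Y Z) : Ho X Z :=
  h.elim fun a => h'.elim fun b => ⟨a.trans b⟩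

lemma Ho.prod (h : Ho X X') (h' : Ho Y Y') : Ho (X × Y) (X' × Y') :=
  h.elim fun a => h'.elim fun b => ⟨a.prodCongr b⟩

lemma Ho.assoc : Ho ((X × Y) × Z) (X × (Y × Z)) := ⟨Homeomorph.prodAssoc X Y Z⟩

lemma Ho.comm : Ho (X × Y) (Y × X) := ⟨Homeomorph.prodComm X Y⟩

lemma Ho.pow (h : Ho X Y) : Ho (ℕ → X) (ℕ → Y) :=
  h.elim fun a => ⟨Homeomorph.piCongrRight fun _ => a⟩

lemma Ho.powProd : Ho (ℕ → X × Y) ((ℕ → X) × (ℕ → Y)) :=
  ⟨{ toFun := fun f => (fun n => (f n).1, fun n => (f n).2)
     invFun := fun p n => (p.1 n, p.2 n)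
     left_inv := fun _ => rfl
     right_inv := fun _ => rfl
     continuous_toFun := by fun_prop
     continuous_invFun := by fun_prop }⟩

lemma Ho.cons : Ho (ℕ → X) (X × (ℕ → X)) :=
  ⟨{ toFun := fun f => (f 0, fun n => f (n + 1))
     invFun := fun p n => Nat.casesOn n p.1 p.2
     left_inv := fun f => funext fun n => by cases n <;> rfl
     right_inv := fun _ => rfl
     continuous_toFun := by fun_prop
     continuous_invFun := by
       refine continuous_pi fun n => ?_
       cases n with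
       | zero => exact continuous_fst
       | succ n => exact (continuous_apply n).comp continuous_snd }⟩

lemma Ho.reindex {A B : Type} (φ : A ≃ B) : Ho (B → X) (A → X) :=
  ⟨{ toFun := fun f a => f (φ a)
     invFun := fun f b => f (φ.symm b)
     left_inv := fun f => funext fun b => by simp
     right_inv := fun f => funext fun a => by simp
     continuous_toFun := by fun_prop
     continuous_invFun := by fun_prop }⟩

lemma Ho.sq : Ho (ℕ → X) ((ℕ → X) × (ℕ → X)) :=
  (Ho.reindex Equiv.natSumNatEquivNat).trans ⟨Homeomorph.sumArrowHomeomorphProdArrow⟩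

lemma Ho.curry : Ho (ℕ → X) (ℕ → ℕ → X) :=
  (Ho.reindex (A := ℕ × ℕ) Nat.pairEquiv).trans
    ⟨{ toFun := fun f a b => f (a, b)
       invFun := fun f p => f p.1 p.2
       left_inv := fun _ => rfl
       right_inv := fun _ => rfl
       continuous_toFun := by fun_prop
       continuous_invFun := by fun_prop }⟩

end

/-! ### `D × V = D` and `D × P = D` -/

lemma hoD2 : Ho (DS (ℕ × ℕ)) (DS ℕ) := ⟨reD Nat.pairEquiv.symm⟩

lemma hoDD : Ho (DS ℕ × DS ℕ) (DS ℕ) :=
  ⟨(sumD ℕ ℕ).symm.trans (reD Equiv.natSumNatEquivNat.symm)⟩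

lemma hoDV : Ho (DS ℕ × VS ℕ) (DS ℕ) :=
  ((hoD2.symm.prod Ho.refl).trans ⟨homA epsNat⟩).trans ((hoD2.prod Ho.refl).trans hoDD)

lemma hoDP : Ho (DS ℕ × PS ℕ) (DS ℕ) :=
  ((hoDV.symm.prod Ho.refl).trans Ho.assoc).trans
    (((Ho.refl.prod (Ho.symm ⟨homB ℕ⟩)).trans Ho.assoc.symm).trans
      ((hoDV.prod Ho.refl).trans hoDD))

lemma hoP : Ho (PS ℕ) (ℕ → CS J) :=
  ⟨{ toFun := fun f n => ⟨f.1 n, f.2 n⟩
     invFun := fun f => ⟨fun n => (f n).1, fun n => (f n).2⟩
     left_inv := fun _ => rfl
     right_inv := fun _ => rfl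
     continuous_toFun := continuous_pi fun n => Continuous.subtype_mk
       ((continuous_apply n).comp continuous_subtype_val) _
     continuous_invFun := Continuous.subtype_mk (continuous_pi fun n =>
       continuous_subtype_val.comp (continuous_apply n)) _ }⟩

/-- complemented subgroups -/
def factor {E F : Type} [AddCommGroup E] [TopologicalSpace E] [IsTopologicalAddGroup E]
    [AddCommGroup F] [TopologicalSpace F] (i : F →+ E) (u : E →+ F)
    (hi : Continuous i) (hu : Continuous u) (h : ∀ f, u (i f) = f) : E ≃ₜ F × u.ker where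
  toFun e := (u e, ⟨e - i (u e), by rw [AddMonoidHom.mem_ker, map_sub, h, sub_self]⟩)
  invFun p := i p.1 + p.2.1
  left_inv e := by
    show i (u e) + (e - i (u e)) = e
    abel
  right_inv p := by
    have h1 : u p.2.1 = 0 := p.2.2
    have h2 : u (i p.1 + p.2.1) = p.1 := by rw [map_add, h, h1, add_zero]
    refine Prod.ext h2 (Subtype.ext ?_)
    show i p.1 + p.2.1 - i (u (i p.1 + p.2.1)) = p.2.1
    rw [h2]
    abel
  continuous_toFun := hu.prodMk (Continuous.subtype_mk (continuous_id.sub (hi.comp hu)) _)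
  continuous_invFun := (hi.comp continuous_fst).add (continuous_subtype_val.comp continuous_snd)

/-- The decomposition argument. -/
theorem decomposition {c R D W W' Z : Type} [TopologicalSpace c] [TopologicalSpace R]
    [TopologicalSpace D] [TopologicalSpace W] [TopologicalSpace W'] [TopologicalSpace Z]
    (a1 : Ho (D × (ℕ → c)) D) (a2 : Ho c (D × W)) (a3 : Ho R (c × W'))
    (a4 : Ho (ℕ → c) (R × Z)) : Ho c R := by
  have s1 : Ho (ℕ → c) (D × (ℕ → c)) :=
    (a2.pow.trans Ho.powProd).trans (((Ho.cons.prod Ho.refl).trans Ho.assoc).trans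
      (Ho.refl.prod (Ho.powProd.symm.trans a2.pow.symm)))
  have s2 : Ho (ℕ → c) D := s1.trans a1
  have s6 : Ho c (ℕ → c) :=
    ((a2.trans (s2.symm.prod Ho.refl)).trans ((Ho.sq.prod Ho.refl).trans Ho.assoc)).trans
      ((Ho.refl.prod ((s2.prod Ho.refl).trans a2.symm)).trans (Ho.comm.trans Ho.cons.symm))
  have s7 : Ho R ((ℕ → c) × R) :=
    ((a3.trans (s6.prod Ho.refl)).trans ((Ho.sq.prod Ho.refl).trans Ho.assoc)).trans
      (Ho.refl.prod ((s6.symm.prod Ho.refl).trans a3.symm))
  have s8 : Ho (ℕ → c) (R × (ℕ → c)) :=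
    ((Ho.curry.trans a4.pow).trans (Ho.powProd.trans (Ho.cons.prod Ho.refl))).trans
      ((Ho.assoc.trans (Ho.refl.prod Ho.powProd.symm)).trans
        (Ho.refl.prod (a4.pow.symm.trans Ho.curry.symm)))
  exact s6.trans (s8.trans (Ho.comm.trans s7.symm))

end Pool.Agent.J4H55.GK
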