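import Mathlib
import Pool.Agent.J4H55.GK.Dec

/-!
# The theorem of Gul'ko and Khmyleva: `C_p(ℝ)` and `C_p([0,1])` are homeomorphic
-/

set_option autoImplicit false

open Set Filter Topology

noncomputable section

namespace Pool.Agent.J4H55.GK

/-- projection to `[0,1]` -/
def pr (x : ℝ) : J := projIcc 0 1 zero_le_one x

lemma pr_cont : Continuous pr := continuous_projIcc (h := zero_le_one)

lemma pr_coe {x : ℝ} (h0 : 0 ≤ x) (h1 : x ≤ 1) : (pr x : ℝ) = x := by
  unfold pr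
  rw [projIcc_of_mem zero_le_one ⟨h0, h1⟩]

lemma pr_self (s : J) : pr s = s := projIcc_val zero_le_one s

/-! ### `C(J)` is a factor of `C(ℝ)` -/

def i4 : CS J →+ CS ℝ where
  toFun f := ⟨fun x => f.1 (pr x), Continuous.comp (f.2 : Continuous f.1) pr_cont⟩
  map_zero' := rfl
  map_add' _ _ := rfl

def u4 : CS ℝ →+ CS J where
  toFun f := ⟨fun x => f.1 x.1, Continuous.comp (f.2 : Continuous f.1) continuous_subtype_val⟩
  map_zero' := rfl
  map_add' _ _ := rfl

lemma i4_cont : Continuous i4 := by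
  refine Continuous.subtype_mk (f := fun (f : CS J) (x : ℝ) => f.1 (pr x))
    (continuous_pi fun x => ?_) _
  exact (continuous_apply (pr x)).comp continuous_subtype_val

lemma u4_cont : Continuous u4 := by
  refine Continuous.subtype_mk (f := fun (f : CS ℝ) (x : J) => f.1 x.1)
    (continuous_pi fun x => ?_) _
  exact (continuous_apply x.1).comp continuous_subtype_val

lemma u4_i4 (f : CS J) : u4 (i4 f) = f := by
  apply Subtype.ext
  funext x
  show f.1 (pr x) = f.1 x
  rw [pr_self]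

/-! ### `D` is a factor of `C(J)` -/

/-- a bump: `1` on `[5/8,7/8]` and `0` outside of `(1/2,1)` -/
def th (y : ℝ) : ℝ := cl (min (8 * y - 4) (8 - 8 * y))

lemma th_cont : Continuous th := cl_cont.comp (by fun_prop)

lemma th_ne {y : ℝ} (h : th y ≠ 0) : 1 / 2 < y ∧ y < 1 := by
  constructor
  · by_contra hc
    exact h (cl_of_nonpos ((min_le_left _ _).trans (by linarith [not_lt.1 hc])))
  · by_contra hc
    exact h (cl_of_nonpos ((min_le_right _ _).trans (by linarith [not_lt.1 hc])))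

lemma th_one {y : ℝ} (h : 5 / 8 ≤ y) (h' : y ≤ 7 / 8) : th y = 1 :=
  cl_of_one_le (le_min (by linarith) (by linarith))

lemma th_abs_le (y : ℝ) : |th y| ≤ 1 := cl_abs_le _

lemma th_unique {x : ℝ} {m n : ℕ} (hm : th (2 ^ m * x) ≠ 0) (hn : th (2 ^ n * x) ≠ 0) :
    m = n := by
  have key : ∀ {m n : ℕ}, m < n → th (2 ^ m * x) ≠ 0 → th (2 ^ n * x) ≠ 0 → False := by
    intro m n h hm hn
    obtain ⟨k, rfl⟩ := Nat.exists_eq_add_of_lt h
    have h1 := th_ne hm
    have h2 := th_ne hn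
    have h3 : (2 : ℝ) ^ (m + k + 1) * x = 2 ^ (k + 1) * (2 ^ m * x) := by ring
    rw [h3] at h2
    have h4 : (2 : ℝ) ≤ 2 ^ (k + 1) := by
      rw [pow_succ]
      have : (1 : ℝ) ≤ 2 ^ k := one_le_pow₀ (by norm_num)
      linarith
    nlinarith [h1.1, h2.2]
  rcases lt_trichotomy m n with h | h | h
  · exact (key h hm hn).elim
  · exact h
  · exact (key h hn hm).elim

/-- the affine map onto `[0,1]` -/
def sg (y : ℝ) : J := pr ((8 * y - 5) / 2)

lemma sg_cont : Continuous sg := pr_cont.comp (by fun_prop)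

open Classical in
/-- the number of the bump -/
def idx (x : ℝ) : ℕ := if h : ∃ n : ℕ, th (2 ^ n * x) ≠ 0 then h.choose else 0

lemma idx_eq {x : ℝ} {n : ℕ} (h : th (2 ^ n * x) ≠ 0) : idx x = n := by
  have h1 : ∃ n : ℕ, th (2 ^ n * x) ≠ 0 := ⟨n, h⟩
  unfold idx
  rw [dif_pos h1]
  exact th_unique h1.choose_spec h

/-- the value of the extension -/
def ex (g : ℕ → J → ℝ) (x : ℝ) : ℝ := th (2 ^ idx x * x) * g (idx x) (sg (2 ^ idx x * x))

lemma ex_eq {g : ℕ → J → ℝ} {x : ℝ} {n : ℕ} (h : th (2 ^ n * x) ≠ 0) :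
    ex g x = th (2 ^ n * x) * g n (sg (2 ^ n * x)) := by
  unfold ex
  rw [idx_eq h]

lemma ex_partial (g : ℕ → J → ℝ) (x : ℝ) (N : ℕ) :
    ∑ n ∈ Finset.range N, th (2 ^ n * x) * g n (sg (2 ^ n * x)) =
      if idx x < N then ex g x else 0 := by
  have h1 : ∀ n, n ≠ idx x → th (2 ^ n * x) = 0 := by
    intro n hn
    by_contra h
    exact hn (idx_eq h).symm
  split_ifs with h
  · rw [Finset.sum_eq_single_of_mem (idx x) (Finset.mem_range.2 h)]
    · rfl
    · intro n _ hn
      rw [h1 n hn, zero_mul]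
  · apply Finset.sum_eq_zero
    intro n hn
    rw [h1 n, zero_mul]
    have := Finset.mem_range.1 hn
    omega

lemma ex_cont {g : ℕ → J → ℝ} (hg : ∀ n, Continuous (g n)) (hv : Van g) :
    Continuous fun x : J => ex g x.1 := by
  apply continuous_of_uniform_approx_of_continuous
  intro u hu
  obtain ⟨δ, hδ, hu⟩ := Metric.mem_uniformity_dist.1 hu
  obtain ⟨N, hN⟩ := (hv δ hδ).bddAbove
  refine ⟨fun x : J => ∑ n ∈ Finset.range (N + 1), th (2 ^ n * x.1) * g n (sg (2 ^ n * x.1)),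
    ?_, ?_⟩
  · refine continuous_finsetSum _ fun n _ => ?_
    have h1 : Continuous fun x : J => (2 : ℝ) ^ n * x.1 := by fun_prop
    exact (th_cont.comp h1).mul ((hg n).comp (sg_cont.comp h1))
  · intro x
    apply hu
    simp only
    rw [ex_partial, Real.dist_eq]
    split_ifs with h
    · rw [sub_self, abs_zero]
      exact hδ
    · rw [sub_zero]
      have h2 : |g (idx x.1) (sg (2 ^ idx x.1 * x.1))| < δ := by
        by_contra hc
        have := hN (show idx x.1 ∈ {a | ∃ x, δ ≤ |g a x|} from ⟨_, not_lt.1 hc⟩)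
        omega
      unfold ex
      rw [abs_mul]
      calc _ ≤ 1 * |g (idx x.1) (sg (2 ^ idx x.1 * x.1))| :=
            mul_le_mul_of_nonneg_right (th_abs_le _) (abs_nonneg _)
        _ < δ := by rw [one_mul]; exact h2

/-- the points of the `n`-th interval -/
def pt (n : ℕ) (s : J) : J := ⟨(5 + 2 * (s : ℝ)) / 8 * (1 / 2) ^ n, by
  have h0 := s.2.1
  have h1 := s.2.2
  have h2 : (0 : ℝ) < (1 / 2) ^ n := by positivity
  have h3 : ((1 : ℝ) / 2) ^ n ≤ 1 := pow_le_one₀ (by norm_num) (by norm_num)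
  constructor
  · positivity
  · have h4 : (5 + 2 * (s : ℝ)) / 8 ≤ 1 := by linarith
    exact mul_le_one₀ h4 h2.le h3⟩

lemma pt_cont (n : ℕ) : Continuous (pt n) := by
  unfold pt
  exact Continuous.subtype_mk (by fun_prop) _

lemma two_pt (n : ℕ) (s : J) : 2 ^ n * (pt n s : ℝ) = (5 + 2 * (s : ℝ)) / 8 := by
  show (2 : ℝ) ^ n * ((5 + 2 * (s : ℝ)) / 8 * (1 / 2) ^ n) = _
  have : (2 : ℝ) ^ n * (1 / 2) ^ n = 1 := by rw [← mul_pow]; norm_num
  calc _ = (5 + 2 * (s : ℝ)) / 8 * ((2 : ℝ) ^ n * (1 / 2) ^ n) := by ring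
    _ = _ := by rw [this, mul_one]

lemma ex_pt (g : ℕ → J → ℝ) (n : ℕ) (s : J) : ex g (pt n s) = g n s := by
  have h0 := s.2.1
  have h1 := s.2.2
  have h2 : th (2 ^ n * (pt n s : ℝ)) = 1 := by
    rw [two_pt]
    exact th_one (by linarith) (by linarith)
  rw [ex_eq (by rw [h2]; exact one_ne_zero), h2, one_mul]
  have h3 : sg (2 ^ n * (pt n s : ℝ)) = s := by
    rw [two_pt]
    unfold sg
    have : (8 * ((5 + 2 * (s : ℝ)) / 8) - 5) / 2 = s := by ring
    rw [this, pr_self]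
  rw [h3]

lemma ex_zero (g : ℕ → J → ℝ) : ex g 0 = 0 := by
  unfold ex
  have : th (2 ^ idx 0 * 0) = 0 := by
    by_contra h
    have := (th_ne h).1
    norm_num at this
  rw [this, zero_mul]

def i3 : DS ℕ →+ CS J where
  toFun g := ⟨fun x => ex g.1 x.1, ex_cont g.2.1 g.2.2⟩
  map_zero' := by
    apply Subtype.ext
    funext x
    exact mul_zero _
  map_add' g h := by
    apply Subtype.ext
    funext x
    exact mul_add _ _ _

lemma van_u3 {f : J → ℝ} (hf : Continuous f) : Van (fun (n : ℕ) s => f (pt n s) - f 0) := by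
  intro δ hδ
  obtain ⟨η, hη, h⟩ := Metric.continuous_iff.1 hf 0 δ hδ
  obtain ⟨N, hN⟩ := exists_pow_lt_of_lt_one hη (by norm_num : (1 : ℝ) / 2 < 1)
  refine (finite_Iio N).subset ?_
  rintro n ⟨s, hs⟩
  rw [mem_Iio]
  by_contra hc
  have h1 : ((1 : ℝ) / 2) ^ n ≤ (1 / 2) ^ N :=
    pow_le_pow_of_le_one (by norm_num) (by norm_num) (not_lt.1 hc)
  have h2 : dist (pt n s) 0 < η := by
    rw [Subtype.dist_eq, Real.dist_eq]
    show |(5 + 2 * (s : ℝ)) / 8 * (1 / 2) ^ n - 0| < η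
    have h0 := s.2.1
    have h1' := s.2.2
    have h3 : (0 : ℝ) < (1 / 2) ^ n := by positivity
    rw [sub_zero, abs_of_nonneg (by positivity)]
    nlinarith
  have h3 := h _ h2
  rw [Real.dist_eq] at h3
  linarith

def u3 : CS J →+ DS ℕ where
  toFun f := ⟨fun n s => f.1 (pt n s) - f.1 0,
    fun n => (Continuous.comp (f.2 : Continuous f.1) (pt_cont n)).sub continuous_const,
    van_u3 f.2⟩
  map_zero' := by
    apply Subtype.ext
    funext n s
    exact sub_self _
  map_add' f g := by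
    apply Subtype.ext
    funext n s
    show f.1 (pt n s) + g.1 (pt n s) - (f.1 0 + g.1 0) =
      (f.1 (pt n s) - f.1 0) + (g.1 (pt n s) - g.1 0)
    ring

lemma i3_cont : Continuous i3 := by
  refine Continuous.subtype_mk (f := fun (g : DS ℕ) (x : J) => ex g.1 x.1)
    (continuous_pi fun x => ?_) _
  have h1 : Continuous fun g : DS ℕ => g.1 (idx x.1) (sg (2 ^ idx x.1 * x.1)) :=
    (continuous_apply _).comp ((continuous_apply (idx x.1)).comp continuous_subtype_val)
  exact continuous_const.mul h1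

lemma u3_cont : Continuous u3 := by
  refine Continuous.subtype_mk (f := fun (f : CS J) (n : ℕ) (s : J) => f.1 (pt n s) - f.1 0)
    (continuous_pi fun n => continuous_pi fun s => ?_) _
  have h1 : ∀ x : J, Continuous fun f : CS J => f.1 x := fun x =>
    (continuous_apply x).comp continuous_subtype_val
  exact (h1 _).sub (h1 _)

lemma u3_i3 (g : DS ℕ) : u3 (i3 g) = g := by
  apply Subtype.ext
  funext n s
  show ex g.1 (pt n s) - ex g.1 ((0 : J) : ℝ) = g.1 n s
  have : ((0 : J) : ℝ) = 0 := rfl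
  rw [ex_pt, this, ex_zero, sub_zero]

/-! ### `C(ℝ)` is a factor of the power of `C(J)` -/

def tau (y : ℝ) : ℝ := max 0 (1 - |y|)

lemma tau_cont : Continuous tau := by unfold tau; fun_prop

lemma tau_zero {y : ℝ} (h : 1 ≤ |y|) : tau y = 0 := max_eq_left (by linarith)

def qq (y : ℝ) : J := pr ((y + 1) / 2)

lemma qq_cont : Continuous qq := pr_cont.comp (by fun_prop)

/-- the sum with the tent functions -/
def gl (g : ℤ → J → ℝ) (x : ℝ) : ℝ :=
  ∑ n ∈ Finset.Icc ⌊x⌋ (⌊x⌋ + 1), tau (x - n) * g n (qq (x - n))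

lemma gl_eq (g : ℤ → J → ℝ) {x : ℝ} {N : ℤ} (h : |x| ≤ N) :
    gl g x = ∑ n ∈ Finset.Icc (-(N + 1)) (N + 1), tau (x - n) * g n (qq (x - n)) := by
  unfold gl
  have h1 := (abs_le.1 h).1
  have h2 := (abs_le.1 h).2
  have h3 := Int.floor_le x
  have h4 := Int.lt_floor_add_one x
  apply Finset.sum_subset
  · intro n hn
    rw [Finset.mem_Icc] at hn ⊢
    have h5 : ((-N - 1 : ℤ) : ℝ) < (⌊x⌋ : ℝ) := by push_cast; linarith
    have h6 : -N - 1 < ⌊x⌋ := by exact_mod_cast h5
    have h7 : (⌊x⌋ : ℝ) ≤ (N : ℝ) := by linarith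
    have h8 : ⌊x⌋ ≤ N := by exact_mod_cast h7
    omega
  · intro n _ hn
    rw [Finset.mem_Icc] at hn
    have h5 : n ≤ ⌊x⌋ - 1 ∨ ⌊x⌋ + 2 ≤ n := by omega
    have h6 : 1 ≤ |x - n| := by
      rcases h5 with h5 | h5
      · have h6 : (n : ℝ) ≤ (⌊x⌋ : ℝ) - 1 := by exact_mod_cast h5
        rw [abs_of_nonneg (by linarith)]
        linarith
      · have h6 : (⌊x⌋ : ℝ) + 2 ≤ n := by exact_mod_cast h5
        rw [abs_of_nonpos (by linarith)]
        linarith
    rw [tau_zero h6, zero_mul]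

lemma gl_cont {g : ℤ → J → ℝ} (hg : ∀ n, Continuous (g n)) : Continuous (gl g) := by
  rw [continuous_iff_continuousAt]
  intro x
  obtain ⟨N, hN⟩ := exists_nat_gt |x|
  have h1 : Continuous fun x : ℝ =>
      ∑ n ∈ Finset.Icc (-((N : ℤ) + 1)) ((N : ℤ) + 1), tau (x - n) * g n (qq (x - n)) := by
    refine continuous_finsetSum _ fun n _ => ?_
    have h2 : Continuous fun x : ℝ => x - n := by fun_prop
    exact (tau_cont.comp h2).mul ((hg n).comp (qq_cont.comp h2))
  refine h1.continuousAt.congr ?_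
  have h3 : ∀ᶠ y : ℝ in 𝓝 x, |y| < N := continuous_abs.continuousAt.eventually_lt_const hN
  filter_upwards [h3] with y hy
  refine (gl_eq g ?_).symm
  have : ((N : ℤ) : ℝ) = (N : ℝ) := by norm_cast
  rw [this]
  exact hy.le

def i2 : CS ℝ →+ (ℤ → CS J) where
  toFun f n := ⟨fun s => f.1 (n - 1 + 2 * (s : ℝ)),
    Continuous.comp (f.2 : Continuous f.1) (by fun_prop)⟩
  map_zero' := rfl
  map_add' _ _ := rfl

def u2 : (ℤ → CS J) →+ CS ℝ where
  toFun g := ⟨gl fun n => (g n).1, gl_cont fun n => (g n).2⟩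
  map_zero' := by
    apply Subtype.ext
    funext x
    show gl (fun _ _ => 0) x = 0
    unfold gl
    simp only [mul_zero, Finset.sum_const_zero]
  map_add' g h := by
    apply Subtype.ext
    funext x
    show gl (fun n => (g n).1 + (h n).1) x = gl (fun n => (g n).1) x + gl (fun n => (h n).1) x
    unfold gl
    rw [← Finset.sum_add_distrib]
    exact Finset.sum_congr rfl fun n _ => mul_add _ _ _

lemma i2_cont : Continuous i2 := by
  refine continuous_pi fun n => ?_
  refine Continuous.subtype_mk (f := fun (f : CS ℝ) (s : J) => f.1 (n - 1 + 2 * (s : ℝ)))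
    (continuous_pi fun s => ?_) _
  exact (continuous_apply _).comp continuous_subtype_val

lemma u2_cont : Continuous u2 := by
  refine Continuous.subtype_mk (f := fun (g : ℤ → CS J) (x : ℝ) => gl (fun n => (g n).1) x)
    (continuous_pi fun x => continuous_finsetSum _ fun n _ => ?_) _
  have h1 : Continuous fun g : ℤ → CS J => (g n).1 (qq (x - n)) :=
    (continuous_apply _).comp (continuous_subtype_val.comp (continuous_apply n))
  exact continuous_const.mul h1

lemma u2_i2 (f : CS ℝ) : u2 (i2 f) = f := by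
  apply Subtype.ext
  funext x
  show gl (fun n s => f.1 (n - 1 + 2 * (s : ℝ))) x = f.1 x
  unfold gl
  have h0 : ∀ n : ℤ, tau (x - n) * f.1 (n - 1 + 2 * (qq (x - n) : ℝ)) = tau (x - n) * f.1 x := by
    intro n
    by_cases h : 1 ≤ |x - n|
    · rw [tau_zero h, zero_mul, zero_mul]
    · have h1 := abs_lt.1 (not_le.1 h)
      unfold qq
      have h2 : (n : ℝ) - 1 + 2 * ((x - n + 1) / 2) = x := by ring
      rw [pr_coe (by linarith) (by linarith), h2]
  rw [Finset.sum_congr rfl fun n _ => h0 n, ← Finset.sum_mul]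
  have h1 : Finset.Icc ⌊x⌋ (⌊x⌋ + 1) = {⌊x⌋, ⌊x⌋ + 1} := by
    ext n
    rw [Finset.mem_Icc, Finset.mem_insert, Finset.mem_singleton]
    omega
  rw [h1, Finset.sum_pair (by omega)]
  have h3 := Int.floor_le x
  have h4 := Int.lt_floor_add_one x
  unfold tau
  push_cast
  rw [abs_of_nonneg (by linarith : 0 ≤ x - (⌊x⌋ : ℝ)),
    abs_of_nonpos (by linarith : x - ((⌊x⌋ : ℝ) + 1) ≤ 0),
    max_eq_right (by linarith), max_eq_right (by linarith)]
  have h5 : 1 - (x - (⌊x⌋ : ℝ)) + (1 - -(x - ((⌊x⌋ : ℝ) + 1))) = 1 := by ring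
  rw [h5, one_mul]

/-! ### The theorem -/

/-- **Gul'ko–Khmyleva**: `C_p([0,1])` and `C_p(ℝ)` are homeomorphic. -/
theorem main : Ho (CS J) (CS ℝ) :=
  decomposition (D := DS ℕ) (W := u3.ker) (W' := u4.ker) (Z := u2.ker)
    ((Ho.refl.prod hoP.symm).trans hoDP)
    ⟨factor i3 u3 i3_cont u3_cont u3_i3⟩
    ⟨factor i4 u4 i4_cont u4_cont u4_i4⟩
    ((Ho.reindex Equiv.intEquivNat).trans ⟨factor i2 u2 i2_cont u2_cont u2_i2⟩)

end Pool.Agent.J4H55.GK
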