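import Mathlib
import Pool.Agent.J4H55.GK.Maps
import Pool.Agent.Helper854.Line

/-!
# A space `t`-equivalent to `[0,1]` which is not a `k`-space
-/

set_option autoImplicit false

open Set Filter Topology

noncomputable section

namespace Pool.Agent.J4H55.GKF

open Pool.Agent.Helper854.Usp

/-- `C_p(X1)` and `C_p([0,1])` are homeomorphic. -/
theorem homeo : Nonempty ({f : X1 → ℝ // Continuous f} ≃ₜ {g : unitInterval → ℝ // Continuous g}) := by
  obtain ⟨φ⟩ := Pool.Agent.J4H55.GK.main
  exact ⟨mainEquiv.toHomeomorph.trans φ.symm⟩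

/-- `X1` is not a `k`-space. -/
theorem not_k : ¬ CompactlyGeneratedSpace X1 := by
  intro h
  have hcl : IsClosed (range pt) := by
    apply CompactlyGeneratedSpace.isClosed
    intro K hK
    have hfin : (pt '' {d | pt d ∈ K}).Finite := (finite_of_isCompact hK).image pt
    have : range pt ∩ K = pt '' {d | pt d ∈ K} := by
      ext x
      constructor
      · rintro ⟨⟨d, rfl⟩, hx⟩
        exact ⟨d, hx, rfl⟩
      · rintro ⟨d, hd, rfl⟩
        exact ⟨⟨d, rfl⟩, hd⟩
    rw [this]
    exact hfin.isClosed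
  have h1 : IsOpen (range pt)ᶜ := hcl.isOpen_compl
  have h2 := h1.2 (by
    rintro ⟨d, hd⟩
    exact pt_ne_re d 0 hd)
  apply not_small_univ
  convert h2 using 1
  ext d
  simp

end Pool.Agent.J4H55.GKF
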